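import Pool.Agent.Y742.CN.Stm

/-! Project CN (helper742), part EXP: the exponential of a derivation. -/

set_option autoImplicit false

namespace Pool.Agent.Y274.CN.Exp

open Finset

theorem leibniz {K : Type} [Field K] (D : Derivation ℤ K K) (a b : K) (n : ℕ) :
    D^[n] (a * b) = ∑ ij ∈ antidiagonal n, (n.choose ij.1 : K) * (D^[ij.1] a * D^[ij.2] b) := by
  induction n with
  | zero => simp
  | succ n ih =>
    have h1 := sum_antidiagonal_choose_succ_mul (R := K) (fun i j => D^[i] a * D^[j] b) n
    rw [h1, Function.iterate_succ_apply', ih, map_sum, ← sum_add_distrib]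
    refine sum_congr rfl fun ij hij => ?_
    rw [HasAntidiagonal.mem_antidiagonal] at hij
    have h2 : n.choose ij.2 = n.choose ij.1 := Nat.choose_symm_of_eq_add hij.symm |>.symm
    rw [h2, D.leibniz, D.leibniz, D.map_natCast, Function.iterate_succ_apply',
      Function.iterate_succ_apply']
    simp only [smul_eq_mul]
    ring

theorem sExp : Pool.Agent.Y742.CN.SExp := by
  intro K M _ _ _ e D
  refine ⟨{ toFun := fun b => PowerSeries.mk fun n => e (D^[n] b) / (n.factorial : M)
            map_one' := ?_
            map_mul' := ?_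
            map_zero' := ?_
            map_add' := ?_ }, ?_⟩
  · ext n
    rw [PowerSeries.coeff_mk]
    rcases n with _ | n
    · simp
    · rw [Function.iterate_succ_apply, D.map_one_eq_zero, iterate_map_zero, map_zero, zero_div,
        PowerSeries.coeff_one, if_neg (Nat.succ_ne_zero n)]
  · intro a b
    ext n
    rw [PowerSeries.coeff_mk, PowerSeries.coeff_mul, leibniz, map_sum, sum_div]
    refine sum_congr rfl fun ij hij => ?_
    rw [HasAntidiagonal.mem_antidiagonal] at hij
    rw [PowerSeries.coeff_mk, PowerSeries.coeff_mk, map_mul, map_mul, map_natCast]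
    have h1 := Nat.add_choose_mul_factorial_mul_factorial ij.1 ij.2
    have h6 : n.choose ij.2 = n.choose ij.1 := (Nat.choose_symm_of_eq_add hij.symm).symm
    rw [hij, h6] at h1
    have h2 : ((n.choose ij.1 : ℕ) : M) * (ij.1.factorial : M) * (ij.2.factorial : M) =
        (n.factorial : M) := by exact_mod_cast h1
    have h3 : (ij.1.factorial : M) ≠ 0 := Nat.cast_ne_zero.2 (Nat.factorial_ne_zero _)
    have h4 : (ij.2.factorial : M) ≠ 0 := Nat.cast_ne_zero.2 (Nat.factorial_ne_zero _)
    have h5 : (n.factorial : M) ≠ 0 := Nat.cast_ne_zero.2 (Nat.factorial_ne_zero _)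
    rw [div_mul_div_comm, div_eq_div_iff h5 (mul_ne_zero h3 h4), ← h2]
    ring
  · ext n
    simp
  · intro a b
    ext n
    simp only [PowerSeries.coeff_mk, map_add]
    rw [iterate_map_add, map_add, add_div]
  · intro b n
    exact PowerSeries.coeff_mk n fun n => e (D^[n] b) / (n.factorial : M)

end Pool.Agent.Y274.CN.Exp
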